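import Pool.Agent.U582.AB.Conv
import Pool.Agent.U582.AB.PkgCUT
import Pool.Agent.U582.AB.PkgFG
import Pool.Agent.U582.AB.Ent

/-!
# Affine varieties: pointed maps, boundedness and affine lines

Let `U = {F = 0, F ∈ I}` be any closed subset of the affine space `A^N` over `ℂ` (any dimension, any
singularities), and `x` a point of `U`. The following are equivalent:

(a) for every pointed curve `(C, c)` the degrees of the morphisms `f : C → U` with `f(c) = x` are bounded;
(b) for every pointed curve `(C, c)` there are only finitely many of them;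
(c) for every pointed variety `(Y, y)` there are only finitely many morphisms `f : Y → U`, `f(y) = x`.

Consequently, if `U` is bounded modulo `Δ` (condition 5 of Q1 for `U` and `Δ`), then for every variety
`Y`, all `y ∈ Y` and all `x ∈ U ∖ Δ` there are only finitely many `f : Y → U` with `f(y) = x` (condition 3
of Q1 for `U` and the same `Δ`).

The following is a criterion for the same property up to countable sets: no nonconstant morphism
`A^1 → U` has `x` in its image if and only if for every pointed curve `(C, c)` there are only finitely many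
morphisms `f : C → U` with `f(c) = x` of each degree, and for every pointed variety `(Y, y)` only countably
many `f : Y → U` with `f(y) = x`. So this is true for all `x ∈ U ∖ Δ` if the nonconstant entire curves in `U`
are contained in `Δ` (condition 2 of Q1 for `U` and `Δ`).

Conventions. A smooth curve `C` is given by its function field `L` (a function field of one variable over
`ℂ`) and the finite set `S` of the places (the points of the smooth compactification) which are not in `C`.
A morphism `C → U` is a tuple `h` of elements of `L` without poles outside of `S` which satisfies the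
equations of `U`. Its degree is bounded if and only if the degrees `hgt (h j)` (numbers of poles) of the
coordinates are. In (c) it is enough to consider affine varieties `Y`, since a morphism from a variety `Y`
to `U` is determined by its restriction to an affine neighbourhood of `y`: `A` is the ring of functions of
`Y`, the point `y` is a homomorphism `A → ℂ`, and a morphism `Y → U` is a tuple of elements of `A`.

Proof. Affine bend and break: infinitely many maps `f` of bounded degree with `f(c) = x` are in an algebraic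
family `f_t` over a curve with a point at infinity where the family has a pole. A weighted limit of
the expansions of the `f_t` at `c` is a nonconstant polynomial map `A^1 → U`, `0 ↦ x`, and its compositions
with `z ↦ z^e` have unbounded degrees. From curves to varieties: infinitely many maps `Y → U` differ
pairwise on a curve in `Y` through `y`, since `ℂ` is uncountable.
-/

set_option autoImplicit false

namespace Pool.Agent.Results.MP_c69980_ag.AffinePointedMaps

open MvPolynomial FF
open Pool.Agent.W603.LV (hgt)

variable {N : ℕ}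

/-- `h` is a point of `U = {F = 0, F ∈ I}` with coordinates in the ring `R` -/
def IsPoint {R : Type} [CommRing R] [Algebra ℂ R] (I : Set (MvPolynomial (Fin N) ℂ))
    (h : Fin N → R) : Prop :=
  ∀ F ∈ I, aeval h F = 0

/-- `h` is a morphism to `U = {F = 0, F ∈ I}` from the smooth curve with function field `L` whose
compactification has the additional points `S` -/
def IsMap {L : Type} [Field L] [Algebra ℂ L] (I : Set (MvPolynomial (Fin N) ℂ))
    (S : Finset (Place ℂ L)) (h : Fin N → L) : Prop :=
  IsPoint I h ∧ ∀ P : Place ℂ L, P ∉ S → ∀ j, P.Reg (h j)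

/-- the value of the map `h` at the point `c` is `x` -/
def HasValue {L : Type} [Field L] [Algebra ℂ L] (c : Place ℂ L) (x : Fin N → ℂ) (h : Fin N → L) :
    Prop :=
  ∀ j, h j = algebraMap ℂ L (x j) ∨ 0 < c.ord (h j - algebraMap ℂ L (x j))

/-- Condition 5 of Q1 for `U = {F = 0, F ∈ I}` and `Δ = {F = 0, F ∈ J}`: for each curve the degrees of
the morphisms to `U` whose image is not in `Δ` are bounded. -/
def BoundedModulo (I J : Set (MvPolynomial (Fin N) ℂ)) : Prop :=
  ∀ (L : Type) [Field L] [Algebra ℂ L] [IsFF ℂ L] (S : Finset (Place ℂ L)), ∃ B : ℤ,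
    ∀ h : Fin N → L, IsMap I S h → (∃ F ∈ J, aeval h F ≠ 0) → ∀ j, hgt ℂ (h j) ≤ B

/-- For each curve and each point `c` of it, the degrees of the morphisms to `U` with the value `x` at
`c` are bounded. -/
def PointedBounded (I : Set (MvPolynomial (Fin N) ℂ)) (x : Fin N → ℂ) : Prop :=
  ∀ (L : Type) [Field L] [Algebra ℂ L] [IsFF ℂ L] (S : Finset (Place ℂ L)) (c : Place ℂ L),
    c ∉ S → ∃ B : ℤ, ∀ h : Fin N → L, IsMap I S h → HasValue c x h → ∀ j, hgt ℂ (h j) ≤ B

/-- For each curve and each point `c` of it, there are only finitely many morphisms to `U` with the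
value `x` at `c`. -/
def PointedCurves (I : Set (MvPolynomial (Fin N) ℂ)) (x : Fin N → ℂ) : Prop :=
  ∀ (L : Type) [Field L] [Algebra ℂ L] [IsFF ℂ L] (S : Finset (Place ℂ L)) (c : Place ℂ L),
    c ∉ S → {h : Fin N → L | IsMap I S h ∧ HasValue c x h}.Finite

/-- Condition 3 of Q1 for the point `x` of `U`: for each affine variety `Y` (with the ring of functions
`A`) and each point `y` of it, there are only finitely many morphisms `f : Y → U` with `f(y) = x`. -/
def PointedVarieties (I : Set (MvPolynomial (Fin N) ℂ)) (x : Fin N → ℂ) : Prop :=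
  ∀ (A : Type) [CommRing A] [IsDomain A] [Algebra ℂ A] [Algebra.FiniteType ℂ A] (y : A →ₐ[ℂ] ℂ),
    {f : Fin N → A | IsPoint I f ∧ ∀ j, y (f j) = x j}.Finite

/-- For each curve and each point `c` of it, there are only finitely many morphisms to `U` of each
degree with the value `x` at `c`; for each affine variety `Y` (with the ring of functions `A`) and each
point `y` of it there are only countably many morphisms `f : Y → U` with `f(y) = x`. -/
def PointedCountable (I : Set (MvPolynomial (Fin N) ℂ)) (x : Fin N → ℂ) : Prop :=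
  (∀ (L : Type) [Field L] [Algebra ℂ L] [IsFF ℂ L] (S : Finset (Place ℂ L)) (c : Place ℂ L),
    c ∉ S → ∀ d : ℤ,
      {h : Fin N → L | IsMap I S h ∧ HasValue c x h ∧ ∀ j, hgt ℂ (h j) ≤ d}.Finite) ∧
  ∀ (A : Type) [CommRing A] [IsDomain A] [Algebra ℂ A] [Algebra.FiniteType ℂ A] (y : A →ₐ[ℂ] ℂ),
    {f : Fin N → A | IsPoint I f ∧ ∀ j, y (f j) = x j}.Countable

/-- Each morphism `G : A^1 → U`, `0 ↦ x`, is constant. -/
def NoAffineLine (I : Set (MvPolynomial (Fin N) ℂ)) (x : Fin N → ℂ) : Prop :=
  ∀ G : Fin N → Polynomial ℂ, IsPoint I G → (∀ j, (G j).eval 0 = x j) → ∀ j, (G j).natDegree = 0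

/-- Condition 2 of Q1 for `U = {F = 0, F ∈ I}` and `Δ = {F = 0, F ∈ J}`: each nonconstant holomorphic
map `ℂ → U` has its image in `Δ`. -/
def EntireModulo (I J : Set (MvPolynomial (Fin N) ℂ)) : Prop :=
  ∀ f : ℂ → Fin N → ℂ, (∀ j, Differentiable ℂ fun z => f z j) → (∀ z, ∀ F ∈ I, eval (f z) F = 0) →
    (∃ z w, f z ≠ f w) → ∀ z, ∀ F ∈ J, eval (f z) F = 0

/-- See the introduction of this file. -/
theorem result (N : ℕ) (I : Set (MvPolynomial (Fin N) ℂ)) :
    (∀ x : Fin N → ℂ, [PointedBounded I x, PointedCurves I x, PointedVarieties I x].TFAE) ∧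
    (∀ x : Fin N → ℂ, NoAffineLine I x ↔ PointedCountable I x) ∧
    ∀ J : Set (MvPolynomial (Fin N) ℂ), ∀ x : Fin N → ℂ, (∃ F ∈ J, eval x F ≠ 0) →
      (BoundedModulo I J → PointedVarieties I x) ∧ (EntireModulo I J → PointedCountable I x) := by
  have hunc : Uncountable ℂ := ⟨fun h => not_countable_complex Set.countable_univ⟩
  have h12 : ∀ x : Fin N → ℂ, PointedBounded I x → Pool.Agent.U582.AB.BddAt I x := by
    intro x h L _ _ _ S c hc
    obtain ⟨B, hB⟩ := h L S c hc
    exact ⟨B, fun f h1 h2 => hB f ⟨h1.eqs, h1.reg⟩ h2⟩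
  have h13 : ∀ x : Fin N → ℂ, Pool.Agent.U582.AB.BddAt I x → PointedVarieties I x := by
    intro x h A _ _ _ _ y
    exact Pool.Agent.U582.AB.pointed_var Pool.Agent.U582.AB.t_CUT h A y
  have h32 : ∀ x : Fin N → ℂ, PointedVarieties I x → PointedCurves I x := by
    intro x h L _ _ _ S c hc
    refine (Pool.Agent.U582.AB.curve_of_var Pool.Agent.U582.AB.t_FG (k := ℂ) (I := I) (v := x) h
      L S c hc).subset ?_
    rintro f ⟨h1, h2⟩
    exact ⟨⟨h1.2, h1.1⟩, h2⟩
  have h21 : ∀ x : Fin N → ℂ, PointedCurves I x → PointedBounded I x := by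
    intro x h L _ _ _ S c hc
    obtain ⟨B, hB⟩ := Pool.Agent.U582.AB.bddAt_of_finite (k := ℂ) (I := I) (v := x)
      (fun L _ _ _ S c hc => (h L S c hc).subset (by
        rintro f ⟨h1, h2⟩
        exact ⟨⟨h1.eqs, h1.reg⟩, h2⟩)) L S c hc
    exact ⟨B, fun f h1 h2 => hB f ⟨h1.2, h1.1⟩ h2⟩
  have h4 : ∀ x : Fin N → ℂ, Pool.Agent.U582.AB.NoLn I x → PointedCountable I x := by
    intro x h
    refine ⟨fun L _ _ _ S c hc d => ?_, fun A _ _ _ _ y => ?_⟩
    · refine (Pool.Agent.U582.AB.pointed_curve_deg h S c hc d).subset ?_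
      rintro f ⟨h1, h2, h3⟩
      exact ⟨⟨h1.2, h1.1⟩, h2, h3⟩
    · exact Pool.Agent.U582.AB.pointed_var_countable Pool.Agent.U582.AB.t_CUT h A y
  refine ⟨fun x => ?_, fun x => ⟨fun h => h4 x fun G h1 h2 => h G h2 h1, fun h G h1 h2 => ?_⟩,
    fun J x hx => ⟨fun hJ => ?_, fun hJ => ?_⟩⟩
  · tfae_have 1 → 3 := fun h => h13 x (h12 x h)
    tfae_have 3 → 2 := h32 x
    tfae_have 2 → 1 := h21 x
    tfae_finish
  · refine Pool.Agent.U582.AB.noLn_of_countable (I := I) (v := x) ?_ G h2 h1
    refine (h.2 (Polynomial ℂ) (Polynomial.aeval (0 : ℂ))).mono ?_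
    rintro f ⟨h3, h4⟩
    exact ⟨h3, fun j => by rw [Polynomial.coe_aeval_eq_eval]; exact h4 j⟩
  · refine h13 x (Pool.Agent.U582.AB.bddAt_of_bdd (I := I) (J := J) ?_ hx)
    intro L _ _ _ S
    obtain ⟨B, hB⟩ := hJ L S
    exact ⟨B, fun f h1 h2 => hB f ⟨h1.eqs, h1.reg⟩ h2⟩
  · exact h4 x (Pool.Agent.U582.AB.noLn_of_entire hJ hx)

end Pool.Agent.Results.MP_c69980_ag.AffinePointedMaps
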