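import Pool.Agent.U647.GB.Cnd

/-!
# The extended Lang-Vojta conjecture for affine surfaces over complex tori

Let `V` be an irreducible affine surface: `y` is its generic point in homogeneous coordinates, with
function field `K`, `VarPts ℂ y` is (the cone over) its closure in projective space, and `V` is the
part `AffPts y` with `x₀ ≠ 0`. We assume (`OverTorus y`) that the closure of `V` has a nonconstant
holomorphic map `α` to a complex torus of any dimension (for instance the Albanese map, if the closure
is an irregular surface), such that the points at infinity lie in a Brody hyperbolic projective set
(for instance curves of genus at least two) or in finitely many fibres of `α`: so the components of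
the boundary which are contracted by `α` may be arbitrary curves. The fibres of `α` are assumed to lie
in the members of a nonconstant pencil, which is always the case for algebraic `α`.

The following are equivalent:

* (1) `V` is pseudo Kobayashi hyperbolic: for some proper closed `Δ` in `V`, the Kobayashi
  pseudodistance of all points `p ≠ q`, not both in `Δ`, is positive;
* (2) `V` is pseudo Brody hyperbolic: for some proper closed `Δ` in `V`, all nonconstant entire curves
  in `V` lie in `Δ`;
* (3) for `Y = G_m`: for some proper closed `Δ` in `V` and all `x` in `V` outside `Δ` there are only
  finitely many morphisms `φ` from `G_m` to `V` with `φ(1) = x`;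
* (5) for `C = G_m`: for some proper closed `Δ` in `V`, the morphisms from `G_m` to `V`, whose image
  is not contained in `Δ`, have bounded degrees;
* all nonconstant entire curves in `V` have their closures among finitely many closed curves in `V`,
  exactly those which are not of log general type;
* `V` is not covered by images of `G_m`.

Condition (4), `V` is of log general type, implies these conditions. So each of the conditions (2),
(3), (4), (5) implies condition (1), and (1) and (2) are equivalent.
-/

set_option autoImplicit false

open MvPolynomial

namespace Pool.Agent.Results.MP_c69980_ag.KobayashiOverTori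

open Pool.Agent.W602.GT (coords LogGeneralType)
open Pool.Agent.W603.GR (OffQ)
open Pool.Agent.V1153.UG (GmRuled)
open Pool.Agent.U647.GB (OverTorus PseudoKobayashi PseudoBrody PointedGmOff BoundedGmOff
  FinitelySpecial Iy lang_vojta)

theorem result {n : ℕ} {K : Type} [Field K] [Algebra ℂ K] (y : Fin (n + 1) → K) (hy0 : y 0 ≠ 0)
    (hgen : coords ℂ y = ⊤) (hw : Algebra.trdeg ℂ K = (2 : ℕ)) (hT : OverTorus y) :
    [PseudoKobayashi y, PseudoBrody y, PointedGmOff y, BoundedGmOff y, FinitelySpecial y,
      ¬ GmRuled (Iy y) (X 0)].TFAE ∧
      (LogGeneralType ℂ K 2 (OffQ (X 0 : MvPolynomial (Fin (n + 1)) ℂ) 1 y) →
        PseudoKobayashi y) :=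
  lang_vojta hy0 hgen hw hT

end Pool.Agent.Results.MP_c69980_ag.KobayashiOverTori
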