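import Pool.Agent.U723.GT.Cond

/-!
MP_c69980_ag, Q1, for all quasi-projective varieties which are quasi-finite over a moduli space of rational
maps of the projective line with a marked point of large exact period: the five conditions hold.

The space `V d n ℂ` (`Pool/Agent/Q41/GT/Mod.lean`) is the set of the `x` in `ℂ ^ (2 d - 1)` such that
`num d x`, of degree less than `d`, with the coefficients `x (inl i)`, and
`den d x = X ^ d + … + x (inr 0) X + num d x (0)` are coprime, and `∞` has the exact period `n` for the map
`f = num d x / den d x` of degree `d`. So `f(∞) = 0` and `f(0) = 1`, and for `n ≥ 3` each conjugacy class of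
pairs (map of degree `d`, point of exact period `n`) has exactly one such representative: `V d n ℂ` is the
moduli space of these pairs, an affine variety. All its components have dimension `2 d - 2`.

`QFin d n I J U` (`Pool/Agent/Q41/GT/Stm6.lean`): `U` is a locally closed subset of affine space, given by the
equations `F = 0`, `F` in `I`, and the condition that `G ≠ 0` for some `G` in `J`, and the projection to the
coordinates in `Sg d` is a morphism `U → V d n ℂ` with finite fibres. By Zariski's main theorem all
quasi-projective varieties with a quasi-finite morphism to `V d n ℂ` are of this form.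

Theorem. For every `d ≥ 2` there is `B` such that for all `n ≥ B` the space `V d n ℂ` is not empty, and for all
`U` with a quasi-finite morphism to `V d n ℂ`:

* `NoEntireCurve` (condition 2 with `Δ = ∅`): all holomorphic maps from `ℂ` to `U` are constant;
* `PointedFinite` (condition 3 with `Δ = ∅`): for every curve with function field `L` (`IsFF ℂ L`), every point
  `c` of the smooth projective curve and every point `a` of `U` there are only finitely many rational maps
  `x` from the curve to the closure of `U` which map the generic point to a point of `U` and `c` to `a`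
  (`Ge c 1 (x i - a i)`: the function `x i - a i` vanishes at `c`). So for every pointed variety `(Y, y)`
  there are only finitely many morphisms `Y → U` which map `y` to `a`: countably many different ones would
  stay different on a very general curve in `Y` through `y`;
* `SubvarietiesGeneral` (condition 4): all irreducible subsets of `U` of positive dimension are of general type,
  so of log-general type;
* `DegreesBounded` (condition 5 with `Δ = ∅`): for some constant `C` all morphisms from a smooth
  quasi-projective curve of genus `g` to `U` have degree at most `C max(2 g - 2, 0)` in the projective closure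
  of `U`, so `Hom(C, U)` is of finite type (`pht`: the degree; `canDeg = 2 g - 2`; `hom e x`: the homogeneous
  coordinates `(1 : x s : …)`);
* `ClosureHyperbolic` (condition 1): for all irreducible components of `U`, or irreducible closed subsets,
  with generic point `x`, the closure `X` in the projective space is hyperbolic modulo a proper closed subset
  `Z = {R = 0}`, in the sense of the structure `HypOff` (`Pool/Agent/Q103/EC/Hyp.lean`); in particular
  (`HypOff.kobayashi`) the Kobayashi pseudodistance of `X` is positive for two different points which are not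
  both in `Z`. The one of `U` is at least the one of `X`, so `U` (if it is irreducible) is pseudo-Kobayashi
  hyperbolic. Moreover `X`, which is a projective variety, also satisfies the conditions 2 to 5 modulo `Z`.

So the conditions 1 to 5 hold for all these varieties `U` and all their subvarieties (and for the compactifications
`X`), and they are equivalent for them.
-/

set_option autoImplicit false

namespace Pool.Agent.Results.MP_c69980_ag.MarkedPeriodicConditions

open FF
open Pool.Agent.Q41.GT (V Sg QFin)
open Pool.Agent.W602.GT (GeneralType)
open Pool.Agent.W603.LV (canDeg Ge)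
open Pool.Agent.W603.PV (pht)
open Pool.Agent.Q103.EC (HypOff)
open Pool.Agent.U723.GT (hom)

section defs

variable {σ : Type}

/-- all holomorphic maps from the complex numbers to `U` are constant -/
def NoEntireCurve (U : Set (σ → ℂ)) : Prop :=
  ∀ F : ℂ → σ → ℂ, (∀ i, Differentiable ℂ fun t => F t i) → (∀ t, F t ∈ U) → ∀ s t, F s = F t

/-- `x` is a point with coordinates in the extension `L` of `ℂ` of the locally closed set with the equations
`I` and the inequations `J` -/
def IsPoint {L : Type} [Field L] [Algebra ℂ L] (I J : Set (MvPolynomial σ ℂ)) (x : σ → L) : Prop :=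
  (∀ F ∈ I, MvPolynomial.aeval x F = 0) ∧ ∃ G ∈ J, MvPolynomial.aeval x G ≠ 0

/-- for all curves and all points `c` of the curve and `a` of `U` there are only finitely many maps from the
curve to the closure of `U`, generically in `U`, which map `c` to `a` -/
def PointedFinite (I J : Set (MvPolynomial σ ℂ)) (U : Set (σ → ℂ)) : Prop :=
  ∀ (L : Type) [Field L] [Algebra ℂ L] [IsFF ℂ L] (c : Place ℂ L), ∀ a ∈ U,
    {x : σ → L | IsPoint I J x ∧ ∀ i, Ge c 1 (x i - algebraMap ℂ L (a i))}.Finite

/-- all irreducible infinite subsets `W` of `U` (with prime vanishing ideal `P`) are of general type -/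
def SubvarietiesGeneral (U : Set (σ → ℂ)) : Prop :=
  ∀ (P : Ideal (MvPolynomial σ ℂ)) [P.IsPrime], ∀ W ⊆ U, W.Infinite →
    P = MvPolynomial.vanishingIdeal ℂ W →
    ∃ w, 1 ≤ w ∧ GeneralType ℂ (FractionRing (MvPolynomial σ ℂ ⧸ P)) w

/-- all morphisms from open subsets of curves of genus `g` to the locally closed set with the equations `I` and
the inequations `J` have degree at most `C max(2 g - 2, 0)` -/
def DegreesBounded (I J : Set (MvPolynomial σ ℂ)) : Prop :=
  ∃ C : ℕ, ∀ (L : Type) [Field L] [Algebra ℂ L] [IsFF ℂ L] (x : σ → L), IsPoint I J x →
    ∀ (M : ℕ) (e : Fin M ≃ σ), pht ℂ (hom e x) ≤ C * max (canDeg ℂ L) 0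

/-- the closures in projective space of all irreducible subsets with generic point `x` in the locally closed
set with the equations `I` and the inequations `J` are hyperbolic modulo a proper closed subset -/
def ClosureHyperbolic (I J : Set (MvPolynomial σ ℂ)) : Prop :=
  ∀ (K : Type) [Field K] [Algebra ℂ K] (x : σ → K),
    IntermediateField.adjoin ℂ (Set.range x) = ⊤ → IsPoint I J x →
    ∀ (M : ℕ) (e : Fin M ≃ σ), ∃ R, HypOff (hom e x) R

end defs

/-- See the explanation at the beginning of the file. -/
theorem result (d : ℕ) (hd : 2 ≤ d) : ∃ B : ℕ, ∀ n : ℕ, B ≤ n → (V d n ℂ).Nonempty ∧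
    ∀ (τ : Type) [Fintype τ] (I J : Set (MvPolynomial (τ ⊕ Sg d) ℂ)) (U : Set (τ ⊕ Sg d → ℂ)),
    QFin d n I J U → NoEntireCurve U ∧ PointedFinite I J U ∧ SubvarietiesGeneral U ∧
      DegreesBounded I J ∧ ClosureHyperbolic I J := by
  obtain ⟨B, hB⟩ := Pool.Agent.U723.GT.conditions d hd
  refine ⟨max B 3, fun n hn => ⟨Pool.Agent.Q41.GT.b_nem d n hd ((le_max_right _ _).trans hn),
    fun τ _ I J U hU => ?_⟩⟩
  obtain ⟨h1, h2, h3, ⟨C, h4⟩, h5⟩ := hB n ((le_max_left _ _).trans hn) τ I J U hU
  refine ⟨h1, ?_, fun P _ W hW hinf hP => h3 P W hW hinf hP,
    ⟨C, fun L _ _ _ x hx M e => h4 L x hx.1 hx.2 M e⟩,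
    fun K _ _ x hgen hx M e => h5 K x hgen hx.1 hx.2 M e⟩
  intro L _ _ _ c a ha
  refine (h2 L c a ha).subset ?_
  rintro x ⟨⟨g1, g2⟩, g3⟩
  exact ⟨g1, g2, g3⟩

end Pool.Agent.Results.MP_c69980_ag.MarkedPeriodicConditions
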