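import Pool.Agent.Q96.HE.Main

/-!
# Log general type and boundedness for varieties with orbifold contact over a base over a torus

Conditions 4 and 5 of the problem, in every dimension, for quasi-projective varieties `Y - D` which
are generically finite over a projective variety `X` with a generically finite rational map to
projective space, and which meet the boundary of `X` with high multiplicity and a hypersurface with
multiplicity at least two.

**The base.** `X` is a projective variety of dimension `d`, with generic point `a` and function field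
`K`, `f 0, …, f n` are forms of the same degree which do not vanish on `X`, and
`x ↦ (f 0 (x) : … : f n (x))` is generically finite on `X`. `Q` is a polynomial, and
`Q (1, f 1 / f 0, …, f n / f 0)` is not zero on `X`. The hypothesis `IsOrbPair` is that the pair
which consists of `X` and of the boundary of the prime divisors (on all models) at which some
`f i / f 0` is not a unit, or at which `Q (1, f 1 / f 0, …)` vanishes to order exactly one, is of log
general type. For `Q = 1` this says that the complement in `X` of the zeros of the forms `f i` is of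
log general type, roughly speaking (common zeros of equal order do not count).

**The varieties.** `Y` is any projective variety, with generic point `b`, with a generically finite
dominant rational map `g` to `X` (`IsCover`), and `D` is a closed subset of `Y`. The hypothesis
`OrbOff m Q b D` is that all arcs in `Y - D`, which are not mapped into the zeros of the forms `f i`,
either have two orders of contact with the forms `f i` which differ by at least `m`, or meet all
`f i = 0` with the same order and the hypersurface `Q = 0` not with order one.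

**The theorem.** If `m` is large, depending only on `X`, the `f i` and `Q`, then `Y - D` is of log
general type (condition 4), and there is a proper closed subset `Δ = {G = 0}` such that for all smooth
projective curves `C` of genus `g` and all nonconstant morphisms `v` from `C` to `Y`, with image not
contained in `D` and not in `Δ`, and with `s` points over `D`, the degree of `v` is at most
`R (2 g - 2 + s)` (a linear form of condition 5). Moreover the degree of the composition with the map
to `X` is at most `A (2 g - 2 + s)`, with one number `A` for all `Y` and `D`, if the image in `X` is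
not a point and not contained in one proper closed subset `B = 0` of `X`, which does not depend on
`Y` and `D`.

`Y - D` need not have a map to a torus or to a semiabelian variety, and no nontrivial map from its
fundamental group is needed; `D` can be empty (`D = {1}`).

The case of log general type and of points `v` which are generic points of curves is a theorem of the
library (`Pool.Agent.Q96.OS.main`, no hand-in of the starting repository uses it), see also
`Pool.Agent.Q96.HE.bound_off`; here the uniform bound is proved for all maps from curves.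
-/

set_option autoImplicit false

namespace Pool.Agent.Results.MP_c69980_ag.OrbifoldBoundedness

open MvPolynomial FF Pool.Agent.W603.LV Pool.Agent.W603.PV Pool.Agent.W602.GT Pool.Agent.Q72.NA
open Pool.Agent.Q271.RC Pool.Agent.Q96.LS Pool.Agent.Q96.OS Pool.Agent.Q96.HE Pool.Agent.Q186.RU

/-- the bound in `X`, uniform in `Y` and `D`, for all maps from curves -/
theorem bound_base {N n d : ℕ} {K : Type} [Field K] [Algebra ℂ K] {a : Fin (N + 1) → K}
    {f : Fin (n + 1) → MvPolynomial (Fin (N + 1)) ℂ} {e : ℕ} {Q : MvPolynomial (Fin (n + 1)) ℂ}
    (hX : IsOrbPair d a f e Q) :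
    ∃ (B : MvPolynomial (Fin (N + 1)) ℂ) (E A m0 : ℕ), B.IsHomogeneous E ∧ aeval a B ≠ 0 ∧
      ∀ m, m0 ≤ m → ∀ (N' : ℕ) (K' : Type) [Field K'] [Algebra ℂ K'] [Algebra K K']
      [IsScalarTower ℂ K K'] (b : Fin (N' + 1) → K')
      (g : Fin (N + 1) → MvPolynomial (Fin (N' + 1)) ℂ) (e' : ℕ), IsCover a b g e' →
      ∀ D : Set (MvPolynomial (Fin (N' + 1)) ℂ), (∀ F ∈ D, ∃ E, F.IsHomogeneous E) →
      OrbOff m Q b D (fun i => bind₁ g (f i)) →
      ∀ (L : Type) [Field L] [Algebra ℂ L] [IsFF ℂ L] (v : Fin (N' + 1) → L), IsMap b D v →
        aeval v (bind₁ g B) ≠ 0 → Nonconst (fun i => aeval v (g i)) →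
        pht ℂ (fun i => aeval v (g i)) ≤ A * eul D v := by
  obtain ⟨B, E, A, m1, hB, hBa, hmain⟩ := pair_linear hX
  refine ⟨B, E, A, m1, hB, hBa, fun m hm N' K' _ _ _ _ b g e' hY D hD hoff L _ _ _ v hv hne
    hnc => ?_⟩
  obtain ⟨c, hc, hgc⟩ := hY.map
  have hBv : aeval (fun i => aeval v (g i)) B ≠ 0 := by
    rw [← aeval_bind₁]
    exact hne
  have hu0 : ∃ j, aeval v (g j) ≠ 0 := by
    obtain ⟨i, j, hj, -⟩ := hnc
    exact ⟨j, hj⟩
  have hv0 : ∃ j, v j ≠ 0 := by
    obtain ⟨i, j, hj, -⟩ := hv.nonconst
    exact ⟨j, hj⟩
  have hfin := fin_centre v hv0 D hD hv.off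
  have hpt : PtF (F := ℂ) a (fun i => aeval v (g i)) :=
    pt_comp a b g e' hY.hom c hgc v fun H E hH hHb => hv.point H E hH hHb
  obtain ⟨h1, h2⟩ := hmain m hm L (fun i => aeval v (g i)) hpt hBv hu0
  have h1' : ∀ i, aeval v (bind₁ g (f i)) ≠ 0 := fun i => by
    rw [aeval_bind₁]
    exact h1 i
  have h3 := h2 hfin.toFinset (fun z hz => by
    have h4 := hoff L v hv.point h1' z (by
      rw [Set.Finite.mem_toFinset] at hz
      exact hz)
    simp only [aeval_bind₁] at h4
    exact h4) hnc
  unfold eul
  rw [Set.ncard_eq_toFinset_card _ hfin]
  exact h3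

/-- **Conditions 4 and 5 for varieties with orbifold contact.** Let `X` (generic point `a`), the
forms `f 0, …, f n` and `Q` be an orbifold pair of log general type, of dimension `d > 0`. There are
numbers `m` and `A` and a proper closed subset `B = 0` of `X` such that for all generically finite
dominant rational maps `g` from projective varieties `Y` (generic point `b`) to `X` and all closed
subsets `D` such that all arcs in `Y - D` have orbifold contact of order at least `m`:

1. `Y - D` is of log general type;
2. all morphisms `v` to `Y` from smooth projective curves, with image not contained in `D` and not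
   mapped to a point or into `B = 0` by `g`, satisfy `deg (g ∘ v) ≤ A (2 g - 2 + s)`, where `g` is the
   genus of the curve and `s` the number of its points over `D`;
3. there are a proper closed subset `G = 0` of `Y` and a number `R` such that
   `deg v ≤ R (2 g - 2 + s)` for all nonconstant morphisms `v` from smooth projective curves to `Y`
   with image not contained in `D` and not in `G = 0`. -/
theorem result {N n d : ℕ} {K : Type} [Field K] [Algebra ℂ K] {a : Fin (N + 1) → K}
    {f : Fin (n + 1) → MvPolynomial (Fin (N + 1)) ℂ} {e : ℕ} {Q : MvPolynomial (Fin (n + 1)) ℂ}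
    (hd : 0 < d) (hX : IsOrbPair d a f e Q) :
    ∃ (m A : ℕ) (B : MvPolynomial (Fin (N + 1)) ℂ) (E : ℕ), B.IsHomogeneous E ∧ aeval a B ≠ 0 ∧
      ∀ (N' : ℕ) (K' : Type) [Field K'] [Algebra ℂ K'] [Algebra K K']
      [IsScalarTower ℂ K K'] (b : Fin (N' + 1) → K')
      (g : Fin (N + 1) → MvPolynomial (Fin (N' + 1)) ℂ) (e' : ℕ), IsCover a b g e' →
      ∀ D : Set (MvPolynomial (Fin (N' + 1)) ℂ), (∀ F ∈ D, ∃ E, F.IsHomogeneous E) →
      OrbOff m Q b D (fun i => bind₁ g (f i)) →
      LogGeneralType ℂ K' d (CentreIn D b) ∧
      (∀ (L : Type) [Field L] [Algebra ℂ L] [IsFF ℂ L] (v : Fin (N' + 1) → L), IsMap b D v →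
        aeval v (bind₁ g B) ≠ 0 → Nonconst (fun i => aeval v (g i)) →
        pht ℂ (fun i => aeval v (g i)) ≤ A * eul D v) ∧
      ∃ (G : MvPolynomial (Fin (N' + 1)) ℂ) (E' R : ℕ), G.IsHomogeneous E' ∧ aeval b G ≠ 0 ∧
        ∀ (L : Type) [Field L] [Algebra ℂ L] [IsFF ℂ L] (v : Fin (N' + 1) → L), IsMap b D v →
          aeval v G ≠ 0 → pht ℂ v ≤ R * eul D v := by
  obtain ⟨B, E, A, m1, hB, hBa, h1⟩ := bound_base hX
  obtain ⟨m2, h2⟩ := orb_lgt hd hX
  obtain ⟨m3, h3⟩ := bound_off hX
  refine ⟨m1 + m2 + m3, A, B, E, hB, hBa, fun N' K' _ _ _ _ b g e' hY D hD hoff => ?_⟩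
  obtain ⟨c, hc, hgc⟩ := hY.map
  have hne : ∀ i, aeval b (bind₁ g (f i)) ≠ 0 := fun i => by
    rw [gen_comp a b g c hgc (hX.hom i)]
    exact mul_ne_zero (pow_ne_zero _ hc) ((map_ne_zero _).2 (hX.ne i))
  exact ⟨h2 (m1 + m2 + m3) (by omega) N' K' b g e' hY _ fun P hP =>
      hoff K' b (fun _ _ _ h => h) hne P hP,
    h1 (m1 + m2 + m3) (by omega) N' K' b g e' hY D hD hoff,
    h3 (m1 + m2 + m3) (by omega) N' K' b g e' hY D hD hoff⟩

end Pool.Agent.Results.MP_c69980_ag.OrbifoldBoundedness
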